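import Pool.Agent.Q324.CN.Red

/-!
# Deciding whether the core equals the nucleus is hard for NP and for coNP
-/

namespace Pool.Agent.Q324.CN

open Pool.Agent.NPC Pool.Agent.H692R2

/-! ### First reduction -/

/-- the groups of the first reduction -/
def g1 (m i : ℕ) : ℕ := if i < 3 * m then 0 else if i < 4 * m then 1 else i + 2

/-- the number of vertices of the first reduction -/
def N1 (m : ℕ) : ℕ := 4 * m + (m + 2)

section One

variable {φ : Φ}

theorem ncard_D : {i : Fin (N1 φ.length) | 3 * φ.length ≤ i.1 ∧ i.1 < 3 * φ.length + φ.length}.ncard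
    = φ.length := ncard_interval _ _ _ (by unfold N1; omega)

theorem cases1 {I : Set (Fin (N1 φ.length))} (hI : Indep (gg φ (g1 φ.length) (N1 φ.length)) I) :
    I ⊆ {i | i.1 < 3 * φ.length} ∨
    I ⊆ {i | 3 * φ.length ≤ i.1 ∧ i.1 < 3 * φ.length + φ.length} ∨ ∃ x, I ⊆ {x} := by
  rcases I.eq_empty_or_nonempty with rfl | ⟨x, hx⟩
  · exact Or.inl (Set.empty_subset _)
  · have h := fun y (hy : y ∈ I) => same_group hI hx hy
    unfold g1 at h
    by_cases h1 : x.1 < 3 * φ.length
    · refine Or.inl fun y hy => ?_
      have := h y hy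
      rw [if_pos h1] at this
      simp only [Set.mem_setOf_eq]
      split_ifs at this <;> omega
    · by_cases h2 : x.1 < 4 * φ.length
      · refine Or.inr (Or.inl fun y hy => ?_)
        have := h y hy
        rw [if_neg h1, if_pos h2] at this
        simp only [Set.mem_setOf_eq]
        split_ifs at this <;> omega
      · refine Or.inr (Or.inr ⟨x, fun y hy => ?_⟩)
        have := h y hy
        rw [if_neg h1, if_neg h2] at this
        rw [Set.mem_singleton_iff]
        apply Fin.ext
        split_ifs at this <;> omega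

theorem bound1 (hm : 1 ≤ φ.length) {I : Set (Fin (N1 φ.length))}
    (hI : Indep (gg φ (g1 φ.length) (N1 φ.length)) I) : I.ncard ≤ φ.length := by
  rcases cases1 hI with h | h | ⟨x, h⟩
  · rw [← Set.inter_eq_left.2 h]
    exact clause_le hI
  · exact (Set.ncard_le_ncard h (Set.toFinite _)).trans ncard_D.le
  · exact (Set.ncard_le_ncard h (Set.toFinite _)).trans (by rw [Set.ncard_singleton]; exact hm)

theorem indep_D : Indep (gg φ (g1 φ.length) (N1 φ.length))
    {i | 3 * φ.length ≤ i.1 ∧ i.1 < 3 * φ.length + φ.length} := by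
  rintro x ⟨hx1, hx2⟩ y ⟨hy1, hy2⟩ hxy
  rw [gg_adj] at hxy
  rcases hxy.2 with h | h
  · apply h
    unfold g1
    rw [if_neg (by omega), if_pos (by omega), if_neg (by omega), if_pos (by omega)]
  · omega

theorem maxIndep_D (hm : 1 ≤ φ.length) : MaxIndep (gg φ (g1 φ.length) (N1 φ.length))
    {i | 3 * φ.length ≤ i.1 ∧ i.1 < 3 * φ.length + φ.length} :=
  ⟨indep_D, fun _ hJ => (bound1 hm hJ).trans ncard_D.ge⟩

theorem nucleus1 (hm : 1 ≤ φ.length) : nucleus (gg φ (g1 φ.length) (N1 φ.length)) = ∅ := by
  refine nucleus_eq_empty_of_universal _ {i | 4 * φ.length ≤ i.1 ∧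
    i.1 < 4 * φ.length + (φ.length + 2)} ?_ ?_
  · rintro k ⟨hk1, hk2⟩ v hv
    rw [gg_adj]
    have hne : k.1 ≠ v.1 := fun h => hv (Fin.ext h.symm)
    refine ⟨hne, Or.inl ?_⟩
    unfold g1
    rw [if_neg (by omega), if_neg (by omega)]
    split_ifs <;> omega
  · intro I hI
    rw [ncard_interval _ _ _ (by unfold N1; omega)]
    have := bound1 hm hI
    omega

theorem core1 (hm : 2 ≤ φ.length) :
    core (gg φ (g1 φ.length) (N1 φ.length)) = ∅ ↔ SAT3 φ := by
  constructor
  · intro hc
    by_contra hsat
    have hN : 3 * φ.length < N1 φ.length := by unfold N1; omega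
    have hmem : (⟨3 * φ.length, hN⟩ : Fin (N1 φ.length)) ∈
        core (gg φ (g1 φ.length) (N1 φ.length)) := by
      intro I hI
      have h1 : φ.length ≤ I.ncard := by
        have := hI.2 _ indep_D
        rw [ncard_D] at this
        exact this
      rcases cases1 hI.1 with h | h | ⟨x, h⟩
      · refine absurd (sat_of_indep hI.1 ?_) hsat
        rw [Set.inter_eq_left.2 h]
        exact h1
      · have h2 : I = {i | 3 * φ.length ≤ i.1 ∧ i.1 < 3 * φ.length + φ.length} := by
          apply Set.eq_of_subset_of_ncard_le h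
          · rw [ncard_D]
            exact h1
        rw [h2]
        simp only [Set.mem_setOf_eq]
        omega
      · have h2 := Set.ncard_le_ncard h (Set.toFinite _)
        rw [Set.ncard_singleton] at h2
        omega
    rw [hc] at hmem
    exact hmem
  · intro hsat
    obtain ⟨f, hf1, hf2, hf3⟩ := exists_choice (N := N1 φ.length) hsat (by unfold N1; omega)
    have hinj : Function.Injective f := by
      intro j j' h
      apply Fin.ext
      rw [← hf1 j, ← hf1 j', h]
    have hI : Indep (gg φ (g1 φ.length) (N1 φ.length)) (Set.range f) := by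
      rintro _ ⟨j, rfl⟩ _ ⟨j', rfl⟩ h
      rw [gg_adj] at h
      obtain ⟨h1, h2⟩ := h
      rcases h2 with h2 | ⟨_, _, h2 | ⟨h2, h3⟩⟩
      · apply h2
        unfold g1
        rw [if_pos (hf2 j), if_pos (hf2 j')]
      · rw [hf1, hf1] at h2
        have h4 : j = j' := Fin.ext h2
        exact h1 (by rw [h4])
      · exact h3 (hf3 j j' h2)
    have hcard : (Set.range f).ncard = φ.length := by
      rw [← Set.image_univ, Set.ncard_image_of_injective _ hinj, Set.ncard_univ, Nat.card_fin]
    have hmax : MaxIndep (gg φ (g1 φ.length) (N1 φ.length)) (Set.range f) :=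
      ⟨hI, fun J hJ => (bound1 (by omega) hJ).trans hcard.ge⟩
    ext v
    simp only [Set.mem_empty_iff_false, iff_false]
    intro hv
    obtain ⟨j, hj⟩ := hv _ hmax
    have h1 := hv _ (maxIndep_D (φ := φ) (by omega))
    have h2 := hf2 j
    rw [hj] at h2
    simp only [Set.mem_setOf_eq] at h1
    omega

end One

/-! ### Second reduction -/

/-- the groups of the second reduction -/
def g2 (m i : ℕ) : ℕ :=
  if i < 3 * m + 1 then 0 else if i < 4 * m + 1 then 1 else if i < 5 * m + 1 then 2 else i + 3

/-- the number of vertices of the second reduction -/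
def N2 (m : ℕ) : ℕ := 5 * m + 1 + (m + 3)

section Two

variable {φ : Φ}

theorem ncard_D1 : {i : Fin (N2 φ.length) | 3 * φ.length + 1 ≤ i.1 ∧
    i.1 < 3 * φ.length + 1 + φ.length}.ncard = φ.length :=
  ncard_interval _ _ _ (by unfold N2; omega)

theorem ncard_D2 : {i : Fin (N2 φ.length) | 4 * φ.length + 1 ≤ i.1 ∧
    i.1 < 4 * φ.length + 1 + φ.length}.ncard = φ.length :=
  ncard_interval _ _ _ (by unfold N2; omega)

theorem cases2 {I : Set (Fin (N2 φ.length))} (hI : Indep (gg φ (g2 φ.length) (N2 φ.length)) I) :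
    I ⊆ {i | i.1 < 3 * φ.length + 1} ∨
    I ⊆ {i | 3 * φ.length + 1 ≤ i.1 ∧ i.1 < 3 * φ.length + 1 + φ.length} ∨
    I ⊆ {i | 4 * φ.length + 1 ≤ i.1 ∧ i.1 < 4 * φ.length + 1 + φ.length} ∨ ∃ x, I ⊆ {x} := by
  rcases I.eq_empty_or_nonempty with rfl | ⟨x, hx⟩
  · exact Or.inl (Set.empty_subset _)
  · have h := fun y (hy : y ∈ I) => same_group hI hx hy
    unfold g2 at h
    by_cases h1 : x.1 < 3 * φ.length + 1
    · refine Or.inl fun y hy => ?_
      have := h y hy
      rw [if_pos h1] at this
      simp only [Set.mem_setOf_eq]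
      split_ifs at this <;> omega
    · by_cases h2 : x.1 < 4 * φ.length + 1
      · refine Or.inr (Or.inl fun y hy => ?_)
        have := h y hy
        rw [if_neg h1, if_pos h2] at this
        simp only [Set.mem_setOf_eq]
        split_ifs at this <;> omega
      · by_cases h3 : x.1 < 5 * φ.length + 1
        · refine Or.inr (Or.inr (Or.inl fun y hy => ?_))
          have := h y hy
          rw [if_neg h1, if_neg h2, if_pos h3] at this
          simp only [Set.mem_setOf_eq]
          split_ifs at this <;> omega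
        · refine Or.inr (Or.inr (Or.inr ⟨x, fun y hy => ?_⟩))
          have := h y hy
          rw [if_neg h1, if_neg h2, if_neg h3] at this
          rw [Set.mem_singleton_iff]
          apply Fin.ext
          split_ifs at this <;> omega

/-- In the first group only the vertex `3m` does not belong to the formula. -/
theorem first_le {I : Set (Fin (N2 φ.length))} (h : I ⊆ {i | i.1 < 3 * φ.length + 1}) :
    I.ncard ≤ (I ∩ {i | i.1 < 3 * φ.length}).ncard + 1 ∧
      (I.ncard ≤ (I ∩ {i | i.1 < 3 * φ.length}).ncard ∨ ∃ x ∈ I, x.1 = 3 * φ.length) := by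
  have hN : 3 * φ.length < N2 φ.length := by unfold N2; omega
  by_cases hs : (⟨3 * φ.length, hN⟩ : Fin (N2 φ.length)) ∈ I
  · refine ⟨?_, Or.inr ⟨_, hs, rfl⟩⟩
    have h1 : I ⊆ insert (⟨3 * φ.length, hN⟩ : Fin (N2 φ.length))
        (I ∩ {i | i.1 < 3 * φ.length}) := by
      intro x hx
      have hx' := h hx
      simp only [Set.mem_setOf_eq] at hx'
      by_cases hxe : x.1 = 3 * φ.length
      · exact Set.mem_insert_iff.2 (Or.inl (Fin.ext hxe))
      · exact Set.mem_insert_iff.2 (Or.inr ⟨hx, by simp only [Set.mem_setOf_eq]; omega⟩)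
    exact (Set.ncard_le_ncard h1 (Set.toFinite _)).trans (Set.ncard_insert_le _ _)
  · have h1 : I ⊆ I ∩ {i | i.1 < 3 * φ.length} := by
      intro x hx
      have hx' := h hx
      simp only [Set.mem_setOf_eq] at hx'
      refine ⟨hx, ?_⟩
      simp only [Set.mem_setOf_eq]
      by_contra hxe
      have : x.1 = 3 * φ.length := by omega
      exact hs (by rw [← (Fin.ext this : x = ⟨3 * φ.length, hN⟩)]; exact hx)
    have h2 := Set.ncard_le_ncard h1 (Set.toFinite _)
    exact ⟨by omega, Or.inl h2⟩

theorem bound2 {I : Set (Fin (N2 φ.length))}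
    (hI : Indep (gg φ (g2 φ.length) (N2 φ.length)) I) : I.ncard ≤ φ.length + 1 := by
  rcases cases2 hI with h | h | h | ⟨x, h⟩
  · have h1 := (first_le h).1
    have h2 := clause_le hI
    omega
  · have := (Set.ncard_le_ncard h (Set.toFinite _)).trans ncard_D1.le
    omega
  · have := (Set.ncard_le_ncard h (Set.toFinite _)).trans ncard_D2.le
    omega
  · have := (Set.ncard_le_ncard h (Set.toFinite _))
    rw [Set.ncard_singleton] at this
    omega

theorem indep_D1 : Indep (gg φ (g2 φ.length) (N2 φ.length))
    {i | 3 * φ.length + 1 ≤ i.1 ∧ i.1 < 3 * φ.length + 1 + φ.length} := by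
  rintro x ⟨hx1, hx2⟩ y ⟨hy1, hy2⟩ hxy
  rw [gg_adj] at hxy
  rcases hxy.2 with h | h
  · apply h
    unfold g2
    rw [if_neg (by omega), if_pos (by omega), if_neg (by omega), if_pos (by omega)]
  · omega

theorem indep_D2 : Indep (gg φ (g2 φ.length) (N2 φ.length))
    {i | 4 * φ.length + 1 ≤ i.1 ∧ i.1 < 4 * φ.length + 1 + φ.length} := by
  rintro x ⟨hx1, hx2⟩ y ⟨hy1, hy2⟩ hxy
  rw [gg_adj] at hxy
  rcases hxy.2 with h | h
  · apply h
    unfold g2
    rw [if_neg (by omega), if_neg (by omega), if_pos (by omega), if_neg (by omega),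
      if_neg (by omega), if_pos (by omega)]
  · omega

theorem nucleus2 : nucleus (gg φ (g2 φ.length) (N2 φ.length)) = ∅ := by
  refine nucleus_eq_empty_of_universal _ {i | 5 * φ.length + 1 ≤ i.1 ∧
    i.1 < 5 * φ.length + 1 + (φ.length + 3)} ?_ ?_
  · rintro k ⟨hk1, hk2⟩ v hv
    rw [gg_adj]
    have hne : k.1 ≠ v.1 := fun h => hv (Fin.ext h.symm)
    refine ⟨hne, Or.inl ?_⟩
    unfold g2
    rw [if_neg (by omega), if_neg (by omega), if_neg (by omega)]
    split_ifs <;> omega
  · intro I hI
    rw [ncard_interval _ _ _ (by unfold N2; omega)]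
    have := bound2 hI
    omega

theorem core2 (hm : 1 ≤ φ.length) :
    core (gg φ (g2 φ.length) (N2 φ.length)) = ∅ ↔ ¬ SAT3 φ := by
  have hN : 3 * φ.length < N2 φ.length := by unfold N2; omega
  constructor
  · intro hc hsat
    obtain ⟨f, hf1, hf2, hf3⟩ := exists_choice (N := N2 φ.length) hsat (by unfold N2; omega)
    have hinj : Function.Injective f := by
      intro j j' h
      apply Fin.ext
      rw [← hf1 j, ← hf1 j', h]
    have hI : Indep (gg φ (g2 φ.length) (N2 φ.length))
        (insert (⟨3 * φ.length, hN⟩ : Fin (N2 φ.length)) (Set.range f)) := by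
      have key : ∀ j, ¬ (gg φ (g2 φ.length) (N2 φ.length)).Adj (f j) ⟨3 * φ.length, hN⟩ := by
        intro j h
        rw [gg_adj] at h
        have := hf2 j
        rcases h.2 with h2 | h2
        · apply h2
          unfold g2
          rw [if_pos (by omega), if_pos (by simp)]
        · simp only at h2
          omega
      intro x hx y hy h
      rw [Set.mem_insert_iff] at hx hy
      rcases hx with rfl | ⟨j, rfl⟩
      · rcases hy with rfl | ⟨j', rfl⟩
        · exact (gg φ (g2 φ.length) (N2 φ.length)).loopless.irrefl _ h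
        · exact key j' h.symm
      · rcases hy with rfl | ⟨j', rfl⟩
        · exact key j h
        · rw [gg_adj] at h
          obtain ⟨h1, h2⟩ := h
          rcases h2 with h2 | ⟨_, _, h2 | ⟨h2, h3⟩⟩
          · apply h2
            have := hf2 j
            have := hf2 j'
            unfold g2
            rw [if_pos (by omega), if_pos (by omega)]
          · rw [hf1, hf1] at h2
            exact h1 (by rw [Fin.ext h2])
          · exact h3 (hf3 j j' h2)
    have hcard : (insert (⟨3 * φ.length, hN⟩ : Fin (N2 φ.length)) (Set.range f)).ncard =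
        φ.length + 1 := by
      rw [Set.ncard_insert_of_notMem _ (Set.toFinite _), ← Set.image_univ,
        Set.ncard_image_of_injective _ hinj, Set.ncard_univ, Nat.card_fin]
      rintro ⟨j, hj⟩
      have := hf2 j
      rw [hj] at this
      simp at this
    have hmem : (⟨3 * φ.length, hN⟩ : Fin (N2 φ.length)) ∈
        core (gg φ (g2 φ.length) (N2 φ.length)) := by
      intro I hIm
      have h1 := hIm.2 _ hI
      rw [hcard] at h1
      rcases cases2 hIm.1 with h | h | h | ⟨x, h⟩
      · have h3 := clause_le hIm.1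
        rcases (first_le h).2 with h4 | ⟨x, hx, hx'⟩
        · omega
        · rw [← (Fin.ext hx' : x = ⟨3 * φ.length, hN⟩)]
          exact hx
      · have := (Set.ncard_le_ncard h (Set.toFinite _)).trans ncard_D1.le
        omega
      · have := (Set.ncard_le_ncard h (Set.toFinite _)).trans ncard_D2.le
        omega
      · have := (Set.ncard_le_ncard h (Set.toFinite _))
        rw [Set.ncard_singleton] at this
        omega
    rw [hc] at hmem
    exact hmem
  · intro hsat
    have hb : ∀ I, Indep (gg φ (g2 φ.length) (N2 φ.length)) I → I.ncard ≤ φ.length := by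
      intro I hI
      rcases cases2 hI with h | h | h | ⟨x, h⟩
      · have h1 := (first_le h).1
        by_contra h2
        exact hsat (sat_of_indep hI (by omega))
      · exact (Set.ncard_le_ncard h (Set.toFinite _)).trans ncard_D1.le
      · exact (Set.ncard_le_ncard h (Set.toFinite _)).trans ncard_D2.le
      · have := (Set.ncard_le_ncard h (Set.toFinite _))
        rw [Set.ncard_singleton] at this
        omega
    ext v
    simp only [Set.mem_empty_iff_false, iff_false]
    intro hv
    have h1 := hv _ ⟨indep_D1, fun J hJ => (hb J hJ).trans ncard_D1.ge⟩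
    have h2 := hv _ ⟨indep_D2, fun J hJ => (hb J hJ).trans ncard_D2.ge⟩
    simp only [Set.mem_setOf_eq] at h1 h2
    omega

end Two

/-! ### Polynomial time and hardness -/

theorem hardPr_two : HardPr (fun φ : Φ => 2 ≤ φ.length) SAT3 := by
  refine hardPr_SAT3b.trans (f := fun φ => φ ++ φ) (by fun_prop) ?_ ?_
  · rintro φ ⟨_, _, h⟩
    have : 0 < φ.length := List.length_pos_iff.2 h
    simp only [List.length_append]
    omega
  · intro φ _
    unfold SAT3 Sat3V
    simp only [List.mem_append, or_self]

theorem adjg_poly' {α : Type} [TEnc α] {φ : α → Φ} {a b i j : α → ℕ} (h1 : Poly φ) (h2 : Poly a)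
    (h3 : Poly b) (h4 : Poly i) (h5 : Poly j) :
    Poly (fun x => adjg (φ x) (a x) (b x) (i x) (j x)) := by
  unfold adjg
  fun_prop

attribute [fun_prop] adjg_poly'

theorem poly1 : Poly (fun φ : Φ => (⟨N1 φ.length, gg φ (g1 φ.length) (N1 φ.length)⟩ : FinGraph)) := by
  refine poly_finGraph (b := fun φ i j => adjg φ (g1 φ.length i) (g1 φ.length j) i j)
    ?_ ?_ (fun φ i j => Iff.rfl)
  · unfold N1
    exact UPoly.add (UPoly.mul (UPoly.const 4) (UPoly.length Poly.id))
      (UPoly.add (UPoly.length Poly.id) (UPoly.const 2))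
  · unfold g1
    fun_prop

theorem poly2 : Poly (fun φ : Φ => (⟨N2 φ.length, gg φ (g2 φ.length) (N2 φ.length)⟩ : FinGraph)) := by
  refine poly_finGraph (b := fun φ i j => adjg φ (g2 φ.length i) (g2 φ.length j) i j)
    ?_ ?_ (fun φ i j => Iff.rfl)
  · unfold N2
    exact UPoly.add (UPoly.add (UPoly.mul (UPoly.const 5) (UPoly.length Poly.id)) (UPoly.const 1))
      (UPoly.add (UPoly.length Poly.id) (UPoly.const 3))
  · unfold g2
    fun_prop

/-- Hardness for `NP`, already for graphs with empty nucleus. -/
theorem hard1 : HardPr (fun G : FinGraph => nucleus G.graph = ∅)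
    (fun G : FinGraph => core G.graph = nucleus G.graph) := by
  refine hardPr_two.trans poly1 (fun φ hφ => nucleus1 (by omega)) (fun φ hφ => ?_)
  change SAT3 φ ↔ core (gg φ (g1 φ.length) (N1 φ.length)) =
    nucleus (gg φ (g1 φ.length) (N1 φ.length))
  rw [nucleus1 (by omega), core1 hφ]

/-- Hardness for `coNP`, already for graphs with empty nucleus. -/
theorem hard2 : HardPr (fun G : FinGraph => nucleus G.graph = ∅)
    (fun G : FinGraph => ¬ core G.graph = nucleus G.graph) := by
  refine hardPr_two.trans poly2 (fun φ _ => nucleus2) (fun φ hφ => ?_)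
  change SAT3 φ ↔ ¬ core (gg φ (g2 φ.length) (N2 φ.length)) =
    nucleus (gg φ (g2 φ.length) (N2 φ.length))
  rw [nucleus2, core2 (by omega), not_not]

end Pool.Agent.Q324.CN
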