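import Pool.Agent.Q324.CN.Defs

/-!
# Graphs with a large set of universal vertices
-/

namespace Pool.Agent.Q324.CN

variable {V : Type*} [Finite V] (G : SimpleGraph V)

/-- If every nonempty independent set has more neighbours than vertices, the nucleus is empty. -/
theorem nucleus_eq_empty (h : ∀ I : Set V, Indep G I → I.Nonempty → I.ncard < (nbhd G I).ncard) :
    nucleus G = ∅ := by
  have h0 : diff G (∅ : Set V) = 0 := by
    have : nbhd G (∅ : Set V) = ∅ := by
      ext v
      simp [nbhd]
    simp [diff, this]
  have hi : Indep G (∅ : Set V) := fun x hx => absurd hx (Set.notMem_empty x)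
  have hneg : ∀ I : Set V, Indep G I → I.Nonempty → diff G I < 0 := by
    intro I hI hne
    have := h I hI hne
    unfold diff
    omega
  have hle : ∀ I : Set V, Indep G I → diff G I ≤ 0 := by
    intro I hI
    rcases I.eq_empty_or_nonempty with rfl | hne
    · exact h0.le
    · exact (hneg I hI hne).le
  have hc : Critical G (∅ : Set V) := ⟨hi, fun J hJ => by rw [h0]; exact hle J hJ⟩
  have hc' : ∀ I : Set V, Critical G I → I = ∅ := by
    intro I hI
    by_contra hne
    have h1 := hneg I hI.1 (Set.nonempty_iff_ne_empty.2 hne)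
    have h2 := hI.2 ∅ hi
    rw [h0] at h2
    omega
  have hm : MaxCritical G (∅ : Set V) := ⟨hc, fun J hJ => by rw [hc' J hJ]⟩
  ext v
  simp only [nucleus, Set.mem_setOf_eq, Set.mem_empty_iff_false, iff_false, not_forall]
  exact ⟨∅, hm, Set.notMem_empty v⟩

/-- A graph in which the vertices of a set `K` are adjacent to all other vertices and all
independent sets are smaller than `K`. -/
theorem nucleus_eq_empty_of_universal (K : Set V) (hK : ∀ k ∈ K, ∀ v, v ≠ k → G.Adj k v)
    (hk : ∀ I : Set V, Indep G I → I.ncard + 1 < K.ncard) : nucleus G = ∅ := by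
  apply nucleus_eq_empty
  intro I hI hne
  obtain ⟨x, hx⟩ := hne
  have h1 : K \ {x} ⊆ nbhd G I := by
    intro k hkk
    refine ⟨x, hx, ?_⟩
    have : x ≠ k := fun h => hkk.2 h.symm
    exact (hK k hkk.1 x this).symm
  have h2 := Set.ncard_le_ncard h1 (Set.toFinite _)
  have h3 : K.ncard ≤ (K \ {x}).ncard + 1 := by
    have := Set.le_ncard_diff ({x} : Set V) K
    simp at this
    omega
  have h4 := hk I hI
  omega

end Pool.Agent.Q324.CN
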