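import Pool.Agent.NPC.Sat2
import Pool.Agent.H692R2.FinGraph
import Pool.Agent.H671R2.PolyAuto
import Pool.Agent.Q324.CN.Lemmas

/-!
# The reductions from 3-satisfiability
-/

namespace Pool.Agent.Q324.CN

open Pool.Agent.NPC Pool.Agent.H692R2

/-- formulas -/
abbrev Φ : Type := List (Lit ℕ × Lit ℕ × Lit ℕ)

/-- literal number `i % 3` of clause `i / 3` -/
def lt (φ : Φ) (i : ℕ) : Bool × ℕ :=
  if i % 3 = 0 then (φ.getD (i / 3) ((true, 0), (true, 0), (true, 0))).1
  else if i % 3 = 1 then (φ.getD (i / 3) ((true, 0), (true, 0), (true, 0))).2.1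
  else (φ.getD (i / 3) ((true, 0), (true, 0), (true, 0))).2.2

theorem lt_poly : Poly (fun p : Φ × ℕ => lt p.1 p.2) := by
  unfold lt
  fun_prop

theorem lt_poly' {α : Type} [TEnc α] {φ : α → Φ} {i : α → ℕ} (h1 : Poly φ) (h2 : Poly i) :
    Poly (fun a => lt (φ a) (i a)) := lt_poly.comp (Poly.pair h1 h2)

attribute [fun_prop] lt_poly'

theorem sat_iff (φ : Φ) : SAT3 φ ↔ ∃ τ : ℕ → Bool, ∀ j < φ.length, ∃ r < 3,
    τ (lt φ (3 * j + r)).2 = (lt φ (3 * j + r)).1 := by
  unfold SAT3 Sat3V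
  refine exists_congr fun τ => ?_
  have e0 : ∀ j, (3 * j + 0) % 3 = 0 := fun j => by omega
  have e1 : ∀ j, (3 * j + 1) % 3 = 1 := fun j => by omega
  have e2 : ∀ j, (3 * j + 2) % 3 = 2 := fun j => by omega
  have d0 : ∀ j, (3 * j + 0) / 3 = j := fun j => by omega
  have d1 : ∀ j, (3 * j + 1) / 3 = j := fun j => by omega
  have d2 : ∀ j, (3 * j + 2) / 3 = j := fun j => by omega
  constructor
  · intro h j hj
    have h1 := h φ[j] (List.getElem_mem hj)
    rcases h1 with h1 | h1 | h1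
    · refine ⟨0, by omega, ?_⟩
      unfold lt
      rw [e0, d0, List.getD_eq_getElem _ _ hj]
      simpa using h1
    · refine ⟨1, by omega, ?_⟩
      unfold lt
      rw [e1, d1, List.getD_eq_getElem _ _ hj]
      simpa using h1
    · refine ⟨2, by omega, ?_⟩
      unfold lt
      rw [e2, d2, List.getD_eq_getElem _ _ hj]
      simpa using h1
  · intro h c hc
    obtain ⟨j, hj, rfl⟩ := List.getElem_of_mem hc
    obtain ⟨r, hr, h1⟩ := h j hj
    unfold lt at h1
    interval_cases r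
    · rw [e0, d0, List.getD_eq_getElem _ _ hj] at h1
      exact Or.inl (by simpa using h1)
    · rw [e1, d1, List.getD_eq_getElem _ _ hj] at h1
      exact Or.inr (Or.inl (by simpa using h1))
    · rw [e2, d2, List.getD_eq_getElem _ _ hj] at h1
      exact Or.inr (Or.inr (by simpa using h1))

/-- the adjacency: vertices of different groups are adjacent; vertices of the formula also if they
belong to one clause or are contradictory -/
def adjg (φ : Φ) (gi gj : ℕ) (i j : ℕ) : Bool :=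
  decide (i ≠ j) && (decide (gi ≠ gj) || (decide (i < 3 * φ.length) && (decide (j < 3 * φ.length) &&
    (decide (i / 3 = j / 3) || (decide ((lt φ i).2 = (lt φ j).2) &&
      decide ((lt φ i).1 ≠ (lt φ j).1))))))

theorem adjg_iff (φ : Φ) (gi gj i j : ℕ) : adjg φ gi gj i j = true ↔
    i ≠ j ∧ (gi ≠ gj ∨ (i < 3 * φ.length ∧ j < 3 * φ.length ∧
      (i / 3 = j / 3 ∨ ((lt φ i).2 = (lt φ j).2 ∧ (lt φ i).1 ≠ (lt φ j).1)))) := by
  simp only [adjg, Bool.and_eq_true, Bool.or_eq_true, decide_eq_true_eq]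

/-- the graph -/
def gg (φ : Φ) (g : ℕ → ℕ) (N : ℕ) : SimpleGraph (Fin N) where
  Adj i j := adjg φ (g i) (g j) i j = true
  symm := ⟨by
    intro i j h
    rw [adjg_iff] at h ⊢
    obtain ⟨h1, h2⟩ := h
    refine ⟨h1.symm, ?_⟩
    rcases h2 with h2 | ⟨h2, h3, h4⟩
    · exact Or.inl h2.symm
    · refine Or.inr ⟨h3, h2, ?_⟩
      rcases h4 with h4 | ⟨h4, h5⟩
      · exact Or.inl h4.symm
      · exact Or.inr ⟨h4.symm, h5.symm⟩⟩
  loopless := ⟨by
    intro i h
    rw [adjg_iff] at h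
    exact h.1 rfl⟩

theorem gg_adj (φ : Φ) (g : ℕ → ℕ) (N : ℕ) (i j : Fin N) : (gg φ g N).Adj i j ↔
    i.1 ≠ j.1 ∧ (g i ≠ g j ∨ (i.1 < 3 * φ.length ∧ j.1 < 3 * φ.length ∧
      (i.1 / 3 = j.1 / 3 ∨ ((lt φ i).2 = (lt φ j).2 ∧ (lt φ i).1 ≠ (lt φ j).1)))) :=
  adjg_iff _ _ _ _ _

variable {φ : Φ} {g : ℕ → ℕ} {N : ℕ}

theorem same_group {I : Set (Fin N)} (hI : Indep (gg φ g N) I) {x y : Fin N} (hx : x ∈ I)
    (hy : y ∈ I) : g x = g y := by
  by_contra h
  by_cases hxy : x.1 = y.1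
  · exact h (by rw [hxy])
  · exact hI x hx y hy ((gg_adj _ _ _ _ _).2 ⟨hxy, Or.inl h⟩)

theorem inj_clause {I : Set (Fin N)} (hI : Indep (gg φ g N) I) :
    Set.InjOn (fun i : Fin N => i.1 / 3) (I ∩ {i | i.1 < 3 * φ.length}) := by
  rintro x ⟨hx, hx'⟩ y ⟨hy, hy'⟩ hxy
  by_contra hne
  exact hI x hx y hy ((gg_adj _ _ _ _ _).2 ⟨fun h => hne (Fin.ext h),
    Or.inr ⟨hx', hy', Or.inl hxy⟩⟩)

theorem clause_le {I : Set (Fin N)} (hI : Indep (gg φ g N) I) :
    (I ∩ {i | i.1 < 3 * φ.length}).ncard ≤ φ.length := by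
  have h1 := Set.ncard_le_ncard_of_injOn (s := I ∩ {i | i.1 < 3 * φ.length})
    (t := Set.Iio φ.length) (fun i : Fin N => i.1 / 3) (by
      rintro i ⟨_, hi⟩
      simp only [Set.mem_Iio, Set.mem_setOf_eq] at hi ⊢
      omega) (inj_clause hI) (Set.finite_Iio _)
  have h2 : (Set.Iio φ.length).ncard = φ.length := by
    rw [← Finset.coe_Iio, Set.ncard_coe_finset, Nat.card_Iio]
  omega

/-- An independent set with a vertex in every clause gives a satisfying assignment. -/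
theorem sat_of_indep {I : Set (Fin N)} (hI : Indep (gg φ g N) I)
    (h : φ.length ≤ (I ∩ {i | i.1 < 3 * φ.length}).ncard) : SAT3 φ := by
  classical
  rw [sat_iff]
  have h2 : (Set.Iio φ.length).ncard = φ.length := by
    rw [← Finset.coe_Iio, Set.ncard_coe_finset, Nat.card_Iio]
  have hsurj : ∀ j < φ.length, ∃ i ∈ I, i.1 < 3 * φ.length ∧ i.1 / 3 = j := by
    intro j hj
    have h3 : (fun i : Fin N => i.1 / 3) '' (I ∩ {i | i.1 < 3 * φ.length}) = Set.Iio φ.length := by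
      apply Set.eq_of_subset_of_ncard_le
      · rintro _ ⟨i, ⟨_, hi⟩, rfl⟩
        simp only [Set.mem_Iio, Set.mem_setOf_eq] at hi ⊢
        omega
      · rw [h2, Set.ncard_image_of_injOn (inj_clause hI)]
        exact h
      · exact Set.finite_Iio _
    have h4 : j ∈ (fun i : Fin N => i.1 / 3) '' (I ∩ {i | i.1 < 3 * φ.length}) := by
      rw [h3]
      exact hj
    obtain ⟨i, ⟨hi, hi'⟩, hij⟩ := h4
    exact ⟨i, hi, hi', hij⟩
  refine ⟨fun x => decide (∃ i ∈ I, i.1 < 3 * φ.length ∧ lt φ i = (true, x)), fun j hj => ?_⟩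
  obtain ⟨i, hi, hi', hij⟩ := hsurj j hj
  refine ⟨i.1 % 3, Nat.mod_lt _ (by norm_num), ?_⟩
  have e : 3 * j + i.1 % 3 = i.1 := by omega
  rw [e]
  rcases hb : (lt φ i).1 with _ | _
  · simp only [decide_eq_false_iff_not]
    rintro ⟨i', hi1, hi2, hi3⟩
    refine hI i hi i' hi1 ((gg_adj _ _ _ _ _).2 ⟨?_, Or.inr ⟨hi', hi2, Or.inr ⟨?_, ?_⟩⟩⟩)
    · intro h5
      rw [h5, hi3] at hb
      exact absurd hb (by simp)
    · rw [hi3]
    · rw [hi3, hb]
      simp
  · simp only [decide_eq_true_eq]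
    exact ⟨i, hi, hi', Prod.ext hb rfl⟩

/-- A satisfying assignment gives a set of vertices of the formula, one for every clause,
which are pairwise not contradictory. -/
theorem exists_choice (h : SAT3 φ) (hN : 3 * φ.length ≤ N) : ∃ f : Fin φ.length → Fin N,
    (∀ j, (f j).1 / 3 = j.1) ∧ (∀ j, (f j).1 < 3 * φ.length) ∧
    ∀ j j', (lt φ (f j)).2 = (lt φ (f j')).2 → (lt φ (f j)).1 = (lt φ (f j')).1 := by
  rw [sat_iff] at h
  obtain ⟨τ, hτ⟩ := h
  choose r hr hr' using fun j : Fin φ.length => hτ j.1 j.2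
  refine ⟨fun j => ⟨3 * j.1 + r j, by have := hr j; have := j.2; omega⟩, fun j => ?_, fun j => ?_,
    fun j j' hjj => ?_⟩
  · have := hr j
    simp only
    omega
  · have := hr j
    have := j.2
    simp only
    omega
  · simp only at hjj ⊢
    rw [← hr' j, ← hr' j', hjj]

theorem ncard_interval (N a c : ℕ) (h : a + c ≤ N) :
    {i : Fin N | a ≤ i.1 ∧ i.1 < a + c}.ncard = c := by
  have h1 : {i : Fin N | a ≤ i.1 ∧ i.1 < a + c} =
      (fun t : Fin c => (⟨a + t.1, by have := t.2; omega⟩ : Fin N)) '' Set.univ := by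
    ext i
    simp only [Set.mem_setOf_eq, Set.image_univ, Set.mem_range]
    constructor
    · rintro ⟨h1, h2⟩
      exact ⟨⟨i.1 - a, by omega⟩, Fin.ext (by simp only; omega)⟩
    · rintro ⟨t, rfl⟩
      have := t.2
      simp only
      omega
  rw [h1, Set.ncard_image_of_injective, Set.ncard_univ, Nat.card_fin]
  intro s t hst
  have := congrArg Fin.val hst
  simp only at this
  exact Fin.ext (by omega)

end Pool.Agent.Q324.CN
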