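import Mathlib

/-!
# The core and the nucleus of a graph: definitions
-/

namespace Pool.Agent.Q324.CN

variable {V : Type*}

/-- `N(X)`: the set of the vertices adjacent to some vertex of `X`. -/
def nbhd (G : SimpleGraph V) (X : Set V) : Set V := {v | ∃ x ∈ X, G.Adj x v}

/-- The difference `d_G(X) = |X| - |N(X)|`. -/
noncomputable def diff (G : SimpleGraph V) (X : Set V) : ℤ := (X.ncard : ℤ) - ((nbhd G X).ncard : ℤ)

/-- Independent sets of vertices. -/
def Indep (G : SimpleGraph V) (I : Set V) : Prop := ∀ x ∈ I, ∀ y ∈ I, ¬ G.Adj x y

/-- Maximum independent sets (of largest cardinality). -/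
def MaxIndep (G : SimpleGraph V) (I : Set V) : Prop :=
  Indep G I ∧ ∀ J, Indep G J → J.ncard ≤ I.ncard

/-- `core(G)`: the intersection of all maximum independent sets. -/
def core (G : SimpleGraph V) : Set V := {v | ∀ I, MaxIndep G I → v ∈ I}

/-- Critical independent sets: independent sets of largest difference. -/
def Critical (G : SimpleGraph V) (I : Set V) : Prop :=
  Indep G I ∧ ∀ J, Indep G J → diff G J ≤ diff G I

/-- Maximum critical independent sets: critical independent sets of largest cardinality. -/
def MaxCritical (G : SimpleGraph V) (I : Set V) : Prop :=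
  Critical G I ∧ ∀ J, Critical G J → J.ncard ≤ I.ncard

/-- `nucleus(G)`: the intersection of all maximum critical independent sets. -/
def nucleus (G : SimpleGraph V) : Set V := {v | ∀ I, MaxCritical G I → v ∈ I}

end Pool.Agent.Q324.CN
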